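import Mathlib
import Pool.Agent.R61.TotThree

/-!
# Extending total colourings of matchings in bipartite graphs
-/

set_option autoImplicit false

namespace Pool.Agent.Results.MP_0d3379_co.Bipartite

open Pool.Agent.R61.TotExt Pool.Agent.TH559.LE

/-- Let `G` be a bipartite graph (every edge has exactly one end in `X`) with all degrees at most
`Δ`, and let `H` be a subgraph of `G` that is a matching (each vertex has at most one neighbour in
`H`).  Then every total colouring `(f0, g0)` of `H` in `G` with `Δ + 3` colours (a total colouring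
of `H` in which the ends of the edges of `H` that are adjacent in `G` have different colours)
extends to a total colouring `(f, g)` of `G` with `Δ + 3` colours. -/
theorem result {V : Type} [Fintype V] (G H : SimpleGraph V) (Δ : ℕ) (X : Set V)
    (hX : ∀ u v, G.Adj u v → (u ∈ X ↔ v ∉ X))
    (hΔ : ∀ v, (G.neighborSet v).ncard ≤ Δ)
    (hHG : H ≤ G) (hmatch : ∀ u v w, H.Adj u v → H.Adj u w → v = w)
    (f0 : V → Fin (Δ + 3)) (g0 : Sym2 V → Fin (Δ + 3)) (h0 : IsTotal H f0 g0)
    (hprop : ∀ u v, (∃ x, H.Adj u x) → (∃ y, H.Adj v y) → G.Adj u v → f0 u ≠ f0 v) :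
    ∃ (f : V → Fin (Δ + 3)) (g : Sym2 V → Fin (Δ + 3)), IsTotal G f g ∧
      ∀ u v, H.Adj u v → f u = f0 u ∧ g s(u, v) = g0 s(u, v) := by
  refine plus3 G H Δ hΔ hHG hmatch f0 g0 h0 hprop ?_
  intro L hs
  exact list_bip hs (fun u => u ∈ X) (fun u v huv => hX u v huv.1)

end Pool.Agent.Results.MP_0d3379_co.Bipartite
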