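import Mathlib
import Pool.Agent.R61.TotThree

/-!
# Extending total colourings of matchings: a condition on neighbours
-/

set_option autoImplicit false

namespace Pool.Agent.Results.MP_0d3379_co.LocalDegree

open Pool.Agent.R61.TotExt Pool.Agent.TH559.LE

/-- Let all degrees of `G` be at most `Δ`, let `k` satisfy `2k ≤ Δ ≤ 3k + 2`, and suppose that
every vertex of degree more than `k` has at most `Δ - k - 1` neighbours of degree more than `k`.
Let `H` be a subgraph of `G` that is a matching (each vertex has at most one neighbour in `H`).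
Then every total colouring `(f0, g0)` of `H` in `G` with `Δ + 3` colours (a total colouring of `H`
in which the ends of the edges of `H` that are adjacent in `G` have different colours) extends to a
total colouring `(f, g)` of `G` with `Δ + 3` colours. -/
theorem result {V : Type} [Fintype V] (G H : SimpleGraph V) (Δ k : ℕ)
    (hΔ : ∀ v, (G.neighborSet v).ncard ≤ Δ) (hk1 : 2 * k ≤ Δ) (hk2 : Δ ≤ 3 * k + 2)
    (hlocal : ∀ v, k < (G.neighborSet v).ncard →
      {w | G.Adj v w ∧ k < (G.neighborSet w).ncard}.ncard + k + 1 ≤ Δ)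
    (hHG : H ≤ G) (hmatch : ∀ u v w, H.Adj u v → H.Adj u w → v = w)
    (f0 : V → Fin (Δ + 3)) (g0 : Sym2 V → Fin (Δ + 3)) (h0 : IsTotal H f0 g0)
    (hprop : ∀ u v, (∃ x, H.Adj u x) → (∃ y, H.Adj v y) → G.Adj u v → f0 u ≠ f0 v) :
    ∃ (f : V → Fin (Δ + 3)) (g : Sym2 V → Fin (Δ + 3)), IsTotal G f g ∧
      ∀ u v, H.Adj u v → f u = f0 u ∧ g s(u, v) = g0 s(u, v) := by
  refine plus3 G H Δ hΔ hHG hmatch f0 g0 h0 hprop ?_
  intro L hs
  refine list_local2 hs k hk1 hk2 ?_
  intro v hv
  have h1 : dg (G \ H) v ≤ dg G v := dg_mono sdiff_le v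
  have h2 := hlocal v (lt_of_lt_of_le hv h1)
  have h3 : {w | (G \ H).Adj v w ∧ k < dg (G \ H) w}.ncard ≤
      {w | G.Adj v w ∧ k < (G.neighborSet w).ncard}.ncard := by
    refine Set.ncard_le_ncard ?_ (Set.toFinite _)
    rintro w ⟨h4, h5⟩
    exact ⟨h4.1, lt_of_lt_of_le h5 (dg_mono sdiff_le w)⟩
  omega

end Pool.Agent.Results.MP_0d3379_co.LocalDegree
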