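import Pool.Agent.R921.TC.Deg

/-!
# Precoloured matchings which do not extend with `Δ + 3` colours

For every `D ≥ 7` there are a finite simple graph `G` of maximum degree `D`, a matching `H` in `G`
and a total colouring of `H` in `G` with `D + 3` colours which does not extend to a total colouring
of `G` with `D + 3` colours.

The graph: with `n = D - 1`, take sides `x_0, …, x_n` and `y_0, …, y_{n-1}`, join every `y_j` to all
but one of the `x_i`, so that `x_0` is missed three times and `x_1, x_2, x_3` are missed, add the
three edges `x_0 x_1`, `x_0 x_2`, `x_0 x_3`, and attach a pendant edge to every vertex. The matching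
`H` consists of all pendant edges. The colours are chosen so that the colours of `x_i` and of its
pendant edge are `0, 1`, and those of `y_j` and of its pendant edge are `2, 3`. In an extension each
of the `n` other colours occurs at each `y_j`, so its edges cover all but one `x_i`, and hence it
cannot be used for an edge `x_0 x_i`; so these three edges would have only the colours `2, 3`.
-/

namespace Pool.Agent.Results.MP_0d3379_co.NonextendableMatchings

open R921.TC

theorem result (D : ℕ) (hD : 7 ≤ D) :
    ∃ (V : Type) (_ : Fintype V) (G : SimpleGraph V) (_ : DecidableRel G.Adj)
      (H : G.Subgraph) (f₀ : V → Fin (D + 3)) (g₀ : Sym2 V → Fin (D + 3)),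
      G.maxDegree = D ∧ H.IsMatching ∧ TotalColoringOn G H f₀ g₀ ∧ ¬ Extends G H f₀ g₀ :=
  main D hD

end Pool.Agent.Results.MP_0d3379_co.NonextendableMatchings
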