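import Mathlib
import Pool.Agent.R61.TotThree

/-!
# Extending total colourings of matchings in sparse graphs
-/

set_option autoImplicit false

namespace Pool.Agent.Results.MP_0d3379_co.SparseGraphs

open Pool.Agent.R61.TotExt Pool.Agent.TH559.LE

/-- Let all degrees of `G` be at most `Δ`, let `k ≥ 1` satisfy `k² + k + 4 ≤ 2Δ`, and suppose
that every nonempty set `A` of vertices induces a subgraph of average degree less than `k + 1`.
Let `H` be a subgraph of `G` that is a matching (each vertex has at most one neighbour in `H`).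
Then every total colouring `(f0, g0)` of `H` in `G` with `Δ + 3` colours (a total colouring of `H`
in which the ends of the edges of `H` that are adjacent in `G` have different colours) extends to a
total colouring `(f, g)` of `G` with `Δ + 3` colours. -/
theorem result {V : Type} [Fintype V] (G H : SimpleGraph V) (Δ k : ℕ)
    (hΔ : ∀ v, (G.neighborSet v).ncard ≤ Δ) (hk : 1 ≤ k) (hkΔ : k ^ 2 + k + 4 ≤ 2 * Δ)
    (hsparse : ∀ A : Finset V, A.Nonempty →
      ∑ v ∈ A, (G.neighborSet v ∩ A).ncard < (k + 1) * A.card)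
    (hHG : H ≤ G) (hmatch : ∀ u v w, H.Adj u v → H.Adj u w → v = w)
    (f0 : V → Fin (Δ + 3)) (g0 : Sym2 V → Fin (Δ + 3)) (h0 : IsTotal H f0 g0)
    (hprop : ∀ u v, (∃ x, H.Adj u x) → (∃ y, H.Adj v y) → G.Adj u v → f0 u ≠ f0 v) :
    ∃ (f : V → Fin (Δ + 3)) (g : Sym2 V → Fin (Δ + 3)), IsTotal G f g ∧
      ∀ u v, H.Adj u v → f u = f0 u ∧ g s(u, v) = g0 s(u, v) := by
  refine plus3 G H Δ hΔ hHG hmatch f0 g0 h0 hprop ?_
  intro L hs
  refine list_sparse2 hs k hk (by nlinarith) ?_
  intro A hA
  refine lt_of_le_of_lt ?_ (hsparse A hA)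
  apply Finset.sum_le_sum
  intro v _
  refine Set.ncard_le_ncard ?_ (Set.toFinite _)
  rintro w ⟨h1, h2⟩
  exact ⟨h1.1, h2⟩

end Pool.Agent.Results.MP_0d3379_co.SparseGraphs
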